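import Pool.Agent.P8H8.MD.Alw
import Pool.Agent.TH105.NU.All
import Pool.Agent.TH2.NU.Final

/-! # Near-uniform vectors with a random sum, all numbers of points at once -/

set_option autoImplicit false

namespace Pool.Agent.P8H8.MD

open Finset Filter Topology
open Pool.Agent.N794.DG
open Pool.Agent.N141.SG (GoodN badN badN_lt good_sq ExN)

/-- **all numbers of points at once** -/
theorem always_all : ∃ N₀ : ℕ, ∀ X : Set ℕ, (∀ n ∈ X, 10 ≤ n) →
    (∀ n ∈ X, ∀ n' ∈ X, n ≠ n' → ¬ IsSquare n → ¬ IsSquare (n * n')) →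
    ∃ c : ℝ, 0 < c ∧ Always fun μ => c ≤ meas μ fun W => ∀ n : ℕ, 10 ≤ n →
      (n ∈ X ∨ IsSquare n ∨ (4 ∣ n ∧ 144 ≤ n) ∨ N₀ ≤ n) → GoodN n W := by
  classical
  obtain ⟨N₀, hN₀⟩ := Pool.Agent.TH105.NU.expDim_near
  refine ⟨N₀, fun X hX hXX => ?_⟩
  obtain ⟨F, hF⟩ : ∃ F : Finset ℕ, F = (range N₀).filter fun n => n ∈ X ∧ ¬ IsSquare n := ⟨_, rfl⟩
  have hmem : ∀ n, n ∈ F → n ∈ X ∧ ¬ IsSquare n := by
    intro n hn
    rw [hF, mem_filter] at hn
    exact hn.2
  obtain ⟨f, hf⟩ : ∃ f : Fin F.card → ℕ, f = fun i => (F.equivFin.symm i : ℕ) := ⟨_, rfl⟩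
  have hfF : ∀ i, f i ∈ F := by
    intro i
    rw [hf]
    exact (F.equivFin.symm i).2
  have hfinj : Function.Injective f := by
    intro i j hij
    rw [hf] at hij
    exact F.equivFin.symm.injective (Subtype.ext hij)
  have hfsurj : ∀ n ∈ F, ∃ i, f i = n := by
    intro n hn
    refine ⟨F.equivFin ⟨n, hn⟩, ?_⟩
    rw [hf]
    simp
  have hn10 : ∀ i, 10 ≤ f i := fun i => hX _ (hmem _ (hfF i)).1
  have hev : ∀ᶠ c : ℝ in 𝓝[>] 0, c ≤ 1 ∧ ∀ i, c < 1 - badN (f i) := by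
    refine Filter.Eventually.and ?_ ?_
    · exact (Filter.Tendsto.eventually_le_const (show (0 : ℝ) < 1 by norm_num)
        (tendsto_id.mono_left nhdsWithin_le_nhds))
    · rw [Filter.eventually_all]
      intro i
      have h1 : Tendsto (fun c : ℝ => c) (𝓝[>] 0) (𝓝 0) := tendsto_id.mono_left nhdsWithin_le_nhds
      exact h1.eventually_lt_const (by linarith [badN_lt (hn10 i)])
  obtain ⟨c, ⟨hc1, hcn⟩, hc0⟩ := (hev.and self_mem_nhdsWithin).exists
  have hc0 : 0 < c := hc0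
  have hck : 0 < c ^ F.card := by positivity
  have h := always_joint (n := f) hn10 (fun i => (hmem _ (hfF i)).2)
    (fun i j hij => hXX _ (hmem _ (hfF i)).1 _ (hmem _ (hfF j)).1 (fun h => hij (hfinj h)) (hmem _ (hfF i)).2)
    hc0.le hc1 hcn (δ := c ^ F.card / 2) (by linarith)
  refine ⟨c ^ F.card / 2, by linarith, h.mono fun μ hμ h1 => ?_⟩
  have h2 : c ^ F.card / 2 ≤ meas μ (fun W => ∀ i, GoodN (f i) W) := by linarith
  refine h2.trans (meas_mono hμ fun W hW n hn hcase => ?_)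
  by_cases hsq : IsSquare n
  · exact good_sq hn hsq W
  by_cases hbig : N₀ ≤ n
  · intro m hm w hw _
    exact hN₀ n hbig m hm w hw
  by_cases hfour : 4 ∣ n ∧ 144 ≤ n
  · obtain ⟨⟨N, rfl⟩, h144⟩ := hfour
    intro m hm w hw _
    exact Pool.Agent.TH2.NU.near4 (by omega) hm hw
  have hnX : n ∈ X := by
    rcases hcase with h3 | h3 | h3 | h3
    · exact h3
    · exact absurd h3 hsq
    · exact absurd h3 hfour
    · exact absurd h3 hbig
  obtain ⟨i, rfl⟩ := hfsurj n (by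
    rw [hF, mem_filter, Finset.mem_range]
    exact ⟨by omega, hnX, hsq⟩)
  exact hW i

end Pool.Agent.P8H8.MD
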