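import Pool.Agent.P8H8.MD.Dig
import Pool.Agent.N794.DG.Near
import Pool.Agent.N141.SG.Near
import Pool.Agent.H383.LinIndep

/-! # Near-uniform vectors with a random sum -/

set_option autoImplicit false

namespace Pool.Agent.P8H8.MD

open Finset Filter Topology
open Pool.Agent.N794.DG
open Pool.Agent.N141.SG (GoodN badN good_sq window_near three_lt)
open Pool.Agent.TH885.NW (loW upW win_len)

theorem ex_eq (x : ℝ) : ex x = Pool.Agent.H469R2.NK.e x := by
  unfold ex Pool.Agent.H469R2.NK.e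
  congr 1
  push_cast
  ring

/-- **one number of points** -/
theorem always_near {n : ℕ} (hn : 10 ≤ n) {δ : ℝ} (hδ : 0 < δ) :
    Always fun μ => meas μ (fun W => ¬ GoodN n W) ≤ badN n + δ := by
  classical
  have hs3 := three_lt hn
  by_cases hsq : IsSquare n
  · have e : badN n = 0 := by
      unfold badN
      rw [if_pos hsq]
    rw [e, zero_add]
    exact always_none hδ 0 _ (fun m _ hbad => hbad (good_sq hn hsq m))
  · have hirr : Irrational (√(n : ℝ))⁻¹ := (irrational_sqrt_natCast_iff.2 hsq).inv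
    obtain ⟨g1, g2, g3⟩ := win_len hn
    have e : badN n = loW n / 2 - (-(upW n / 2)) := by
      unfold badN loW upW
      rw [if_neg hsq]
      ring
    rw [e]
    exact always_arc hirr ((√(n : ℝ) - 3) / 2) (by linarith) hδ 0 _ (fun m _ hbad => window_near hn hbad)

theorem irr_inv {k : ℕ} {n : Fin k → ℕ} (hns : ∀ i, ¬ IsSquare (n i))
    (hind : ∀ i j, i ≠ j → ¬ IsSquare (n i * n j)) (h : Fin k → ℤ) (hh : h ≠ 0) :
    Irrational (∑ i, (h i : ℝ) * (√(n i : ℝ))⁻¹) := by
  choose r a har hr using fun i => Nat.sq_mul_squarefree (n i)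
  have hr1 : ∀ i, r i ≠ 1 := by
    intro i h1
    apply hns i
    rw [← har i, h1, mul_one]
    exact ⟨a i, sq (a i)⟩
  have hr0 : ∀ i, r i ≠ 0 := fun i => (hr i).ne_zero
  have ha0 : ∀ i, a i ≠ 0 := by
    intro i h0
    apply hns i
    rw [← har i, h0]
    exact ⟨0, by simp⟩
  have hrinj : Function.Injective r := by
    intro i j hij
    by_contra hne
    apply hind i j hne
    rw [← har i, ← har j, hij]
    exact ⟨a i * a j * r j, by ring⟩
  rintro ⟨x, hx⟩
  apply hh
  have hm : ∀ j : Option (Fin k), Squarefree (j.elim 1 r) := by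
    intro j
    cases j with
    | none => exact squarefree_one
    | some i => exact hr i
  have hmi : Function.Injective (fun j : Option (Fin k) => (⟨j.elim 1 r, hm j⟩ : {s : ℕ // Squarefree s})) := by
    intro i j hij
    have hij : i.elim 1 r = j.elim 1 r := congrArg Subtype.val hij
    cases i with
    | none =>
      cases j with
      | none => rfl
      | some j =>
        simp only [Option.elim] at hij
        exact absurd hij.symm (hr1 j)
    | some i =>
      cases j with
      | none =>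
        simp only [Option.elim] at hij
        exact absurd hij (hr1 i)
      | some j =>
        simp only [Option.elim] at hij
        rw [hrinj hij]
  have h1 := Pool.Agent.H383.Gauss.sf_indep.comp _ hmi
  rw [Fintype.linearIndependent_iff] at h1
  have h3 := h1 (fun j => j.elim (-x) (fun i => (h i : ℚ) / (a i * r i))) (by
    rw [Fintype.sum_option]
    simp only [Function.comp_apply, Option.elim, Rat.smul_def]
    have e1 : ∑ i : Fin k, (((h i : ℚ) / ((a i : ℚ) * (r i : ℚ)) : ℚ) : ℝ) * √(r i : ℝ) = (x : ℝ) := by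
      rw [hx]
      refine sum_congr rfl fun i _ => ?_
      have h4 : (0 : ℝ) < r i := by exact_mod_cast Nat.pos_of_ne_zero (hr0 i)
      have h5 : (0 : ℝ) < a i := by exact_mod_cast Nat.pos_of_ne_zero (ha0 i)
      have h6 : √(n i : ℝ) = a i * √(r i : ℝ) := by
        rw [← har i]
        push_cast
        rw [Real.sqrt_mul (by positivity), Real.sqrt_sq h5.le]
      rw [h6]
      have h7 : 0 < √(r i : ℝ) := Real.sqrt_pos.2 h4
      have h8 : (r i : ℝ) = √(r i : ℝ) * √(r i : ℝ) := (Real.mul_self_sqrt h4.le).symm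
      obtain ⟨y, hy⟩ : ∃ y, y = √(r i : ℝ) := ⟨_, rfl⟩
      push_cast
      rw [← hy] at h7 h8 ⊢
      rw [h8]
      field_simp
    rw [e1]
    push_cast
    simp)
  funext i
  have h4 := h3 (some i)
  simp only [Option.elim] at h4
  have h5 : (a i : ℚ) * (r i : ℚ) ≠ 0 := by
    have h6 := hr0 i
    have h7 := ha0 i
    exact mul_ne_zero (by exact_mod_cast h7) (by exact_mod_cast h6)
  rw [div_eq_zero_iff] at h4
  rcases h4 with h4 | h4
  · exact_mod_cast h4
  · exact absurd h4 h5

/-- **several numbers of points at once** -/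
theorem always_joint {k : ℕ} {n : Fin k → ℕ} (hn : ∀ i, 10 ≤ n i) (hns : ∀ i, ¬ IsSquare (n i))
    (hind : ∀ i j, i ≠ j → ¬ IsSquare (n i * n j)) {c : ℝ} (hc : 0 ≤ c) (hc1 : c ≤ 1)
    (hcn : ∀ i, c < 1 - badN (n i)) {δ : ℝ} (hδ : 0 < δ) :
    Always fun μ => c ^ k - δ ≤ meas μ (fun W => ∀ i, GoodN (n i) W) := by
  have hev : ∀ᶠ s : ℝ in 𝓝[>] 0, ∀ i, c / 2 + s < (1 - badN (n i)) / 2 := by
    rw [Filter.eventually_all]
    intro i
    have h1 : Tendsto (fun s : ℝ => c / 2 + s) (𝓝[>] 0) (𝓝 (c / 2 + 0)) :=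
      ((continuous_const.add continuous_id).tendsto 0).mono_left nhdsWithin_le_nhds
    exact h1.eventually_lt_const (by linarith [hcn i])
  obtain ⟨s, hs1, hs0⟩ := (hev.and self_mem_nhdsWithin).exists
  have h := always_box (fun i => (√(n i : ℝ))⁻¹) (irr_inv hns hind) (fun i => (√(n i : ℝ) - 3) / 2)
    (fun i => loW (n i) / 2 + (1 - badN (n i)) / 2) (c / 2) s δ (by linarith) (by linarith) hs0 hδ 0
    (fun W => ∀ i, GoodN (n i) W) (fun W _ hz i => by
      by_contra hbad
      obtain ⟨z, hz⟩ := hz i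
      obtain ⟨z', h1, h2⟩ := window_near (hn i) hbad
      have e : badN (n i) = loW (n i) / 2 + upW (n i) / 2 := by
        unfold badN loW upW
        rw [if_neg (hns i)]
        ring
      have h3 := hs1 i
      have h4 := abs_le.1 hz
      rw [e] at h3 h4
      have h5 : (z : ℝ) < z' := by linarith
      have h6 : z + 1 ≤ z' := by exact_mod_cast h5
      have h7 : (z : ℝ) + 1 ≤ z' := by exact_mod_cast h6
      linarith)
  have e : 2 * (c / 2) = c := by ring
  rw [e] at h
  exact h

/-- **restricted digits in all number systems with radices at most `R`** -/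
theorem always_radix {Q : (ℕ →₀ ℝ) → Prop} (hQ : Always Q) {R : ℕ} (hR : 2 ≤ R) :
    ∃ K₀ : ℕ, ∀ K : ℕ, K₀ ≤ K → ∀ (b : ℕ → ℕ) (D : ℕ → Finset ℕ), Sys R b D → ∀ A B : ℕ, 1 ≤ A → A ≤ R →
      Q (law (dig b D K) (fun _ => 1 / ((dig b D K).card : ℝ)) (fun t => B + A * t)) := by
  classical
  obtain ⟨Θ, hΘ, ε, hε, n₀, h⟩ := hQ
  have hk : ∀ θ : ℝ, ∃ K₀ : ℕ, θ ∈ Θ → ∀ K : ℕ, K₀ ≤ K → ∀ (b : ℕ → ℕ) (D : ℕ → Finset ℕ), Sys R b D →
      ∀ A : ℕ, 1 ≤ A → A ≤ R →
        ‖∑ t ∈ dig b D K, Pool.Agent.H469R2.NK.e (θ * A * t)‖ ≤ ε * (dig b D K).card := by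
    intro θ
    by_cases h0 : θ ∈ Θ
    · obtain ⟨K₀, hK₀⟩ := small_dig (hΘ θ h0) hR hε
      exact ⟨K₀, fun _ => hK₀⟩
    · exact ⟨0, fun h1 => absurd h1 h0⟩
  choose K₁ hK₁ using hk
  obtain ⟨K₂, hK₂⟩ := exists_nat_ge ((n₀ : ℝ) / ε)
  refine ⟨max K₂ (Θ.sup K₁), fun K hK b D hS A B hA1 hA2 => h _ ?_⟩
  have hD : ∀ j, ∀ d ∈ D j, d < b j := fun j => (hS j).2.2.1
  have hcard : 2 ^ K ≤ (dig b D K).card := by
    rw [dig_card hD]
    have h1 := pow_card_le_prod (range K) (fun j => (D j).card) 2 fun j _ => (hS j).2.2.2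
    rwa [card_range] at h1
  have hcard0 : (0 : ℝ) < (dig b D K).card := by
    have h1 : 0 < 2 ^ K := by positivity
    exact_mod_cast lt_of_lt_of_le h1 hcard
  refine law_near (fun _ _ => by positivity) (by rw [sum_const, nsmul_eq_mul, mul_one_div_cancel hcard0.ne']) _
    (fun θ hθ => ?_) ?_
  · have h4 : ∑ t ∈ dig b D K, ((1 / ((dig b D K).card : ℝ) : ℝ) : ℂ) * ex (θ * ((B + A * t : ℕ) : ℝ)) =
        ((1 / ((dig b D K).card : ℝ) : ℝ) : ℂ) * (ex (θ * B) *
          ∑ t ∈ dig b D K, Pool.Agent.H469R2.NK.e (θ * A * t)) := by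
      rw [mul_sum, mul_sum]
      refine sum_congr rfl fun t _ => ?_
      have e1 : θ * ((B + A * t : ℕ) : ℝ) = θ * B + θ * A * t := by
        push_cast
        ring
      rw [e1, ex_add, ← ex_eq (θ * A * t)]
    rw [h4, norm_mul, norm_mul, norm_ex, one_mul, Complex.norm_real, Real.norm_of_nonneg (by positivity),
      one_div_mul_eq_div, div_le_iff₀ hcard0]
    exact hK₁ θ hθ K ((le_sup hθ).trans ((le_max_right _ _).trans hK)) b D hS A hA1 hA2
  · rw [← sum_filter, sum_const, nsmul_eq_mul, mul_one_div, div_le_iff₀ hcard0]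
    have h1 : ((dig b D K).filter fun t => B + A * t < n₀).card ≤ n₀ := by
      have h2 : ((dig b D K).filter fun t => B + A * t < n₀) ⊆ range n₀ := by
        intro t ht
        rw [mem_filter] at ht
        have h3 : t ≤ A * t := Nat.le_mul_of_pos_left _ (by omega)
        exact Finset.mem_range.2 (by omega)
      have h3 := Finset.card_le_card h2
      rwa [card_range] at h3
    have h2 : (K₂ : ℝ) ≤ (dig b D K).card := by
      have h3 : K ≤ 2 ^ K := Nat.lt_two_pow_self.le
      exact_mod_cast ((le_max_left _ _).trans hK).trans (h3.trans hcard)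
    rw [div_le_iff₀ hε] at hK₂
    calc (((dig b D K).filter fun t => B + A * t < n₀).card : ℝ) ≤ n₀ := by exact_mod_cast h1
      _ ≤ K₂ * ε := hK₂
      _ ≤ ε * (dig b D K).card := by
          rw [mul_comm]
          exact mul_le_mul_of_nonneg_left h2 hε.le

end Pool.Agent.P8H8.MD
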