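import Pool.Agent.N141.SG.Seq1

/-! # Exponential sums over integers with restricted digits in number systems with bounded radices -/

set_option autoImplicit false

namespace Pool.Agent.P8H8.MD

open Finset Filter
open Pool.Agent.H469R2.NK (e norm_e e_add)
open Pool.Agent.N141.SG (SmallTo e_ne_one)

/-- the weight of the place `j` in the number system with the radices `b` -/
def wt (b : ℕ → ℕ) (j : ℕ) : ℕ := ∏ i ∈ range j, b i

/-- the numbers with `K` digits, the digit at the place `j` in `D j` -/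
def dig (b : ℕ → ℕ) (D : ℕ → Finset ℕ) : ℕ → Finset ℕ
  | 0 => {0}
  | K + 1 => (dig b D K ×ˢ D K).image fun p => p.1 + (∏ i ∈ range K, b i) * p.2

/-- radices between `2` and `R`, at least two digits at each place -/
def Sys (R : ℕ) (b : ℕ → ℕ) (D : ℕ → Finset ℕ) : Prop :=
  ∀ j, 2 ≤ b j ∧ b j ≤ R ∧ (∀ d ∈ D j, d < b j) ∧ 2 ≤ (D j).card

theorem dig_lt {b : ℕ → ℕ} {D : ℕ → Finset ℕ} (hD : ∀ j, ∀ d ∈ D j, d < b j) (K : ℕ) :
    ∀ t ∈ dig b D K, t < wt b K := by
  induction K with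
  | zero =>
    intro t ht
    simp only [dig, Finset.mem_singleton] at ht
    simp [wt, ht]
  | succ K ih =>
    intro t ht
    simp only [dig, Finset.mem_image, Finset.mem_product, Prod.exists] at ht
    obtain ⟨x, d, ⟨hx, hd⟩, rfl⟩ := ht
    have h1 := ih x hx
    have h2 := hD K d hd
    have e1 : wt b (K + 1) = wt b K * b K := by
      unfold wt
      rw [prod_range_succ]
    have h3 : wt b K * (d + 1) ≤ wt b K * b K := Nat.mul_le_mul_left _ (by omega)
    have e2 : wt b K * (d + 1) = wt b K * d + wt b K := by ring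
    rw [e1]
    change x + wt b K * d < wt b K * b K
    omega

theorem dig_inj {b : ℕ → ℕ} {D : ℕ → Finset ℕ} (hD : ∀ j, ∀ d ∈ D j, d < b j) (K : ℕ) :
    Set.InjOn (fun p : ℕ × ℕ => p.1 + (∏ i ∈ range K, b i) * p.2)
      (dig b D K ×ˢ D K : Finset (ℕ × ℕ)) := by
  rintro ⟨x, d⟩ h1 ⟨y, c⟩ h2 h
  simp only [Finset.coe_product, Set.mem_prod, Finset.mem_coe] at h1 h2
  have hx : x < wt b K := dig_lt hD K x h1.1
  have hy : y < wt b K := dig_lt hD K y h2.1
  have h : x + wt b K * d = y + wt b K * c := h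
  have e1 : (x + wt b K * d) % wt b K = x := by
    rw [Nat.add_mul_mod_self_left]
    exact Nat.mod_eq_of_lt hx
  have e2 : (y + wt b K * c) % wt b K = y := by
    rw [Nat.add_mul_mod_self_left]
    exact Nat.mod_eq_of_lt hy
  have e3 : x = y := by rw [← e1, ← e2, h]
  subst e3
  have e4 : wt b K * d = wt b K * c := by omega
  have e5 : d = c := Nat.eq_of_mul_eq_mul_left (by omega) e4
  rw [e5]

theorem dig_card {b : ℕ → ℕ} {D : ℕ → Finset ℕ} (hD : ∀ j, ∀ d ∈ D j, d < b j) (K : ℕ) :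
    (dig b D K).card = ∏ j ∈ range K, (D j).card := by
  induction K with
  | zero => simp [dig]
  | succ K ih =>
    rw [dig, card_image_of_injOn (dig_inj hD K), card_product, ih, prod_range_succ]

theorem sum_dig {b : ℕ → ℕ} {D : ℕ → Finset ℕ} (hD : ∀ j, ∀ d ∈ D j, d < b j) (θ : ℝ) (K : ℕ) :
    ∑ t ∈ dig b D K, e (θ * t) = ∏ j ∈ range K, ∑ d ∈ D j, e (θ * wt b j * d) := by
  induction K with
  | zero =>
    simp [dig, Pool.Agent.H469R2.NK.e]
  | succ K ih =>
    rw [dig, sum_image (dig_inj hD K), sum_product, prod_range_succ, ← ih, sum_mul]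
    refine sum_congr rfl fun x _ => ?_
    rw [mul_sum]
    refine sum_congr rfl fun d _ => ?_
    rw [← e_add]
    congr 1
    unfold wt
    push_cast
    ring

theorem norm_add_one_le {z : ℂ} (hz : ‖z‖ = 1) {c : ℝ} (hc : 0 ≤ c) (_hc2 : c ≤ 2) (h : c ≤ ‖z - 1‖) :
    ‖1 + z‖ ≤ 2 - c ^ 2 / 4 := by
  have h1 : ‖1 + z‖ ^ 2 + ‖1 - z‖ ^ 2 = 4 := by
    have := parallelogram_law_with_norm ℝ (1 : ℂ) z
    rw [norm_one, hz] at this
    nlinarith
  have h2 : ‖1 - z‖ = ‖z - 1‖ := norm_sub_rev _ _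
  rw [h2] at h1
  have h3 : c ^ 2 ≤ ‖z - 1‖ ^ 2 := pow_le_pow_left₀ hc h 2
  have h4 : ‖1 + z‖ ^ 2 ≤ (2 - c ^ 2 / 4) ^ 2 := by nlinarith [sq_nonneg (c ^ 2)]
  have h5 : 0 ≤ 2 - c ^ 2 / 4 := by nlinarith
  exact le_of_sq_le_sq h4 h5

/-- one digit -/
theorem digit_le {D : Finset ℕ} {d d' : ℕ} (hd : d ∈ D) (hd' : d' ∈ D) (hne : d ≠ d') (x : ℝ)
    {c : ℝ} (hc : 0 ≤ c) (hc2 : c ≤ 2) (h : c ≤ ‖e (x * ((d' : ℝ) - d)) - 1‖) :
    ‖∑ t ∈ D, e (x * t)‖ ≤ D.card - c ^ 2 / 4 := by
  classical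
  have h1 : D = insert d (insert d' ((D.erase d).erase d')) := by
    rw [Finset.insert_erase (Finset.mem_erase.2 ⟨hne.symm, hd'⟩), Finset.insert_erase hd]
  have hn1 : d ∉ insert d' ((D.erase d).erase d') := by
    simp [hne]
  have hn2 : d' ∉ (D.erase d).erase d' := by simp
  have hcard : D.card = ((D.erase d).erase d').card + 2 := by
    rw [Finset.card_erase_of_mem (Finset.mem_erase.2 ⟨hne.symm, hd'⟩), Finset.card_erase_of_mem hd]
    have : 2 ≤ D.card := by
      have h3 : ({d, d'} : Finset ℕ) ⊆ D := by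
        intro y hy
        simp only [Finset.mem_insert, Finset.mem_singleton] at hy
        rcases hy with rfl | rfl
        · exact hd
        · exact hd'
      have := Finset.card_le_card h3
      rwa [Finset.card_pair hne] at this
    omega
  have h2 : ∑ t ∈ D, e (x * t) = e (x * d) * (1 + e (x * ((d' : ℝ) - d))) +
      ∑ t ∈ (D.erase d).erase d', e (x * t) := by
    conv_lhs => rw [h1]
    rw [sum_insert hn1, sum_insert hn2, mul_add, ← e_add, mul_one]
    have : x * d + x * ((d' : ℝ) - d) = x * d' := by ring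
    rw [this]
    ring
  rw [h2]
  refine (norm_add_le _ _).trans ?_
  have h3 : ‖∑ t ∈ (D.erase d).erase d', e (x * t)‖ ≤ ((D.erase d).erase d').card := by
    refine (norm_sum_le _ _).trans (le_of_eq ?_)
    simp only [norm_e, sum_const, nsmul_eq_mul, mul_one]
  have h4 : ‖e (x * d) * (1 + e (x * ((d' : ℝ) - d)))‖ ≤ 2 - c ^ 2 / 4 := by
    rw [norm_mul, norm_e, one_mul]
    exact norm_add_one_le (norm_e _) hc hc2 h
  have h5 : (D.card : ℝ) = ((D.erase d).erase d').card + 2 := by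
    rw [hcard]
    push_cast
    ring
  rw [h5]
  linarith

/-- expansion -/
theorem expand {b : ℕ} (hb : 2 ≤ b) {z : ℂ} (hz : ‖z‖ = 1) (h : ‖z - 1‖ ≤ 1 / (2 * (b : ℝ) ^ 2)) :
    3 / 2 * ‖z - 1‖ ≤ ‖z ^ b - 1‖ := by
  have hb0 : (2 : ℝ) ≤ b := by exact_mod_cast hb
  have h1 : z ^ b - 1 = (z - 1) * ∑ i ∈ range b, z ^ i := (mul_geom_sum z b).symm
  have h2 : ∀ i : ℕ, ‖z ^ i - 1‖ ≤ i * ‖z - 1‖ := by
    intro i
    induction i with
    | zero => simp
    | succ i ih =>
      have : z ^ (i + 1) - 1 = z ^ i * (z - 1) + (z ^ i - 1) := by ring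
      rw [this]
      refine (norm_add_le _ _).trans ?_
      rw [norm_mul, norm_pow, hz, one_pow, one_mul]
      push_cast
      linarith
  have h3 : ‖(∑ i ∈ range b, z ^ i) - b‖ ≤ 1 / 2 := by
    have e1 : (∑ i ∈ range b, z ^ i) - b = ∑ i ∈ range b, (z ^ i - 1) := by
      rw [sum_sub_distrib]
      simp
    rw [e1]
    refine (norm_sum_le _ _).trans ?_
    have : ∑ i ∈ range b, ‖z ^ i - 1‖ ≤ ∑ i ∈ range b, (b : ℝ) * (1 / (2 * (b : ℝ) ^ 2)) := by
      refine sum_le_sum fun i hi => (h2 i).trans ?_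
      have hi2 : (i : ℝ) ≤ b := by exact_mod_cast (Finset.mem_range.1 hi).le
      exact mul_le_mul hi2 h (norm_nonneg _) (by linarith)
    refine this.trans (le_of_eq ?_)
    rw [sum_const, card_range, nsmul_eq_mul]
    field_simp
  have h4 : (3 : ℝ) / 2 ≤ ‖∑ i ∈ range b, z ^ i‖ := by
    have h5 : (b : ℝ) ≤ ‖∑ i ∈ range b, z ^ i‖ + 1 / 2 := by
      have h6 : ‖(b : ℂ)‖ ≤ ‖∑ i ∈ range b, z ^ i‖ + ‖(∑ i ∈ range b, z ^ i) - b‖ := by
        have e2 : (b : ℂ) = (∑ i ∈ range b, z ^ i) - ((∑ i ∈ range b, z ^ i) - b) := by ring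
        calc ‖(b : ℂ)‖ = ‖(∑ i ∈ range b, z ^ i) - ((∑ i ∈ range b, z ^ i) - b)‖ := by rw [← e2]
          _ ≤ _ := norm_sub_le _ _
      rw [Complex.norm_natCast] at h6
      linarith
    linarith
  rw [h1, norm_mul, mul_comm]
  exact mul_le_mul_of_nonneg_left h4 (norm_nonneg _)

theorem e_nat_mul (b : ℕ) (x : ℝ) : e (b * x) = e x ^ b := by
  unfold Pool.Agent.H469R2.NK.e
  rw [← Complex.exp_nat_mul]
  congr 1
  push_cast
  ring


theorem pow_sub_le {z : ℂ} (hz : ‖z‖ = 1) (i : ℕ) : ‖z ^ i - 1‖ ≤ i * ‖z - 1‖ := by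
  induction i with
  | zero => simp
  | succ i ih =>
    have : z ^ (i + 1) - 1 = z ^ i * (z - 1) + (z ^ i - 1) := by ring
    rw [this]
    refine (norm_add_le _ _).trans ?_
    rw [norm_mul, norm_pow, hz, one_pow, one_mul]
    push_cast
    linarith

/-- the orbit of an irrational number is often not near `0`, uniformly in the radices -/
theorem orbit {θ : ℝ} (hθ : Irrational θ) {R : ℕ} (hR : 2 ≤ R) {c : ℝ}
    (hc : c ≤ 1 / (2 * (R : ℝ) ^ 2)) (N : ℕ) :
    ∃ K : ℕ, ∀ P : ℕ → ℕ, 1 ≤ P 0 → P 0 ≤ R → (∀ j, ∃ r, 2 ≤ r ∧ r ≤ R ∧ P (j + 1) = r * P j) →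
      N ≤ ((range K).filter fun j => c ≤ ‖e (θ * P j) - 1‖).card := by
  induction N with
  | zero => exact ⟨0, fun _ _ _ _ => Nat.zero_le _⟩
  | succ N ih =>
    obtain ⟨K, hK⟩ := ih
    have hne : ∀ q : ℕ, 1 ≤ q → 0 < ‖e (θ * q) - 1‖ := by
      intro q hq
      refine norm_pos_iff.2 (e_ne_one fun k hk => ?_)
      have h3 : Irrational (θ * (q : ℝ)) := hθ.mul_natCast (by omega)
      exact h3 ⟨k, by rw [hk]; simp⟩
    obtain ⟨q₀, hq₀, hmin⟩ := Finset.exists_min_image (Finset.Icc 1 (R ^ (K + 1)))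
      (fun q : ℕ => ‖e (θ * q) - 1‖) ⟨1, Finset.mem_Icc.2 ⟨le_rfl, Nat.one_le_pow _ _ (by omega)⟩⟩
    have hη := hne q₀ (Finset.mem_Icc.1 hq₀).1
    obtain ⟨L, hL⟩ := pow_unbounded_of_one_lt (2 / ‖e (θ * q₀) - 1‖) (show (1 : ℝ) < 3 / 2 by norm_num)
    rw [div_lt_iff₀ hη] at hL
    refine ⟨K + L + 1, fun P hP0 hP1 hP => ?_⟩
    have hpos : ∀ j, 1 ≤ P j ∧ P j ≤ R ^ (j + 1) := by
      intro j
      induction j with
      | zero => exact ⟨hP0, by simpa using hP1⟩
      | succ j ih =>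
        obtain ⟨r, hr1, hr2, hr⟩ := hP j
        rw [hr]
        constructor
        · exact Nat.one_le_iff_ne_zero.2 (Nat.mul_ne_zero (by omega) (by omega))
        · rw [pow_succ' R (j + 1)]
          exact Nat.mul_le_mul hr2 ih.2
    have hex : ∃ j, K ≤ j ∧ j < K + L + 1 ∧ c ≤ ‖e (θ * P j) - 1‖ := by
      by_contra hcon
      push Not at hcon
      have h1 : ∀ i : ℕ, i ≤ L →
          (3 / 2 : ℝ) ^ i * ‖e (θ * P K) - 1‖ ≤ ‖e (θ * P (K + i)) - 1‖ := by
        intro i
        induction i with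
        | zero => simp
        | succ i ih =>
          intro hi
          have h2 := ih (by omega)
          obtain ⟨r, hr1, hr2, hr⟩ := hP (K + i)
          have hr0 : (2 : ℝ) ≤ r := by exact_mod_cast hr1
          have hrR : (r : ℝ) ≤ R := by exact_mod_cast hr2
          have h3 : ‖e (θ * P (K + i)) - 1‖ ≤ 1 / (2 * (r : ℝ) ^ 2) := by
            refine (hcon (K + i) (by omega) (by omega)).le.trans (hc.trans ?_)
            apply one_div_le_one_div_of_le (by positivity)
            have : (r : ℝ) ^ 2 ≤ (R : ℝ) ^ 2 := pow_le_pow_left₀ (by linarith) hrR 2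
            linarith
          have h4 := expand hr1 (norm_e (θ * P (K + i))) h3
          rw [← e_nat_mul] at h4
          have e1 : (r : ℝ) * (θ * P (K + i)) = θ * P (K + (i + 1)) := by
            rw [← add_assoc, hr]
            push_cast
            ring
          rw [e1] at h4
          have h5 : (3 / 2 : ℝ) ^ (i + 1) * ‖e (θ * P K) - 1‖ =
              3 / 2 * ((3 / 2 : ℝ) ^ i * ‖e (θ * P K) - 1‖) := by ring
          rw [h5]
          linarith
      have h2 := h1 L le_rfl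
      have h3 := hcon (K + L) (by omega) (by omega)
      have h4 := hmin (P K) (Finset.mem_Icc.2 (hpos K))
      have hR0 : (2 : ℝ) ≤ R := by exact_mod_cast hR
      have h6 : 1 / (2 * (R : ℝ) ^ 2) ≤ 2 := by
        rw [div_le_iff₀ (by positivity)]
        nlinarith
      have h7 : (3 / 2 : ℝ) ^ L * ‖e (θ * q₀) - 1‖ ≤ (3 / 2 : ℝ) ^ L * ‖e (θ * P K) - 1‖ :=
        mul_le_mul_of_nonneg_left h4 (by positivity)
      linarith
    obtain ⟨j, hj1, hj2, hj3⟩ := hex
    have h1 := hK P hP0 hP1 hP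
    have h2 : insert j ((range K).filter fun j => c ≤ ‖e (θ * P j) - 1‖) ⊆
        (range (K + L + 1)).filter fun j => c ≤ ‖e (θ * P j) - 1‖ := by
      intro y hy
      rw [Finset.mem_insert] at hy
      rcases hy with rfl | hy
      · exact Finset.mem_filter.2 ⟨Finset.mem_range.2 hj2, hj3⟩
      · rw [Finset.mem_filter, Finset.mem_range] at hy
        exact Finset.mem_filter.2 ⟨Finset.mem_range.2 (by omega), hy.2⟩
    have h3 : j ∉ (range K).filter fun j => c ≤ ‖e (θ * P j) - 1‖ := by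
      intro h
      rw [Finset.mem_filter, Finset.mem_range] at h
      omega
    have h4 := Finset.card_le_card h2
    rw [Finset.card_insert_of_notMem h3] at h4
    omega

/-- products with many small factors -/
theorem prod_small {g : ℕ → ℝ} (h0 : ∀ j, 0 ≤ g j) (h1 : ∀ j, g j ≤ 1) {ρ : ℝ} (hρ0 : 0 ≤ ρ) (hρ : ρ ≤ 1)
    {K N : ℕ} {p : ℕ → Prop} [DecidablePred p] (hN : N ≤ ((range K).filter p).card)
    (hp : ∀ j, p j → g j ≤ ρ) : ∏ j ∈ range K, g j ≤ ρ ^ N := by
  have e1 : ∏ j ∈ range K, g j = (∏ j ∈ (range K).filter p, g j) *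
      ∏ j ∈ (range K).filter (fun j => ¬ p j), g j := (prod_filter_mul_prod_filter_not _ _ _).symm
  rw [e1]
  have h2 : ∏ j ∈ (range K).filter (fun j => ¬ p j), g j ≤ 1 :=
    prod_le_one (fun j _ => h0 j) (fun j _ => h1 j)
  have h3 : ∏ j ∈ (range K).filter p, g j ≤ ρ ^ ((range K).filter p).card := by
    rw [← prod_const]
    exact prod_le_prod (fun j _ => h0 j) (fun j hj => hp j (Finset.mem_filter.1 hj).2)
  have h4 : ρ ^ ((range K).filter p).card ≤ ρ ^ N := pow_le_pow_of_le_one hρ0 hρ hN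
  calc (∏ j ∈ (range K).filter p, g j) * ∏ j ∈ (range K).filter (fun j => ¬ p j), g j
      ≤ (∏ j ∈ (range K).filter p, g j) * 1 :=
        mul_le_mul_of_nonneg_left h2 (prod_nonneg fun j _ => h0 j)
    _ ≤ ρ ^ N := by rw [mul_one]; exact h3.trans h4

/-- **the exponential sums over all digit sets with bounded radices** -/
theorem small_dig {θ : ℝ} (hθ : Irrational θ) {R : ℕ} (hR : 2 ≤ R) {ε : ℝ} (hε : 0 < ε) :
    ∃ K₀ : ℕ, ∀ K : ℕ, K₀ ≤ K → ∀ (b : ℕ → ℕ) (D : ℕ → Finset ℕ), Sys R b D →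
      ∀ A : ℕ, 1 ≤ A → A ≤ R →
        ‖∑ t ∈ dig b D K, e (θ * A * t)‖ ≤ ε * (dig b D K).card := by
  have hR0 : (2 : ℝ) ≤ R := by exact_mod_cast hR
  obtain ⟨M, hM⟩ : ∃ M : ℕ, M = R.factorial := ⟨_, rfl⟩
  have hM1 : 1 ≤ M := hM ▸ Nat.factorial_pos R
  have hMR : (1 : ℝ) ≤ M := by exact_mod_cast hM1
  set c : ℝ := 1 / (2 * (R : ℝ) ^ 2) with hc
  have hc0 : 0 < c := by positivity
  set c' : ℝ := c / M with hc'
  have hc'0 : 0 < c' := by positivity
  have hc'2 : c' ≤ 2 := by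
    have h1 : c ≤ 2 := by
      rw [hc, div_le_iff₀ (by positivity)]
      nlinarith
    have h2 : c' ≤ c := div_le_self hc0.le hMR
    linarith
  set ρ : ℝ := max 0 (1 - c' ^ 2 / 4 / R) with hρ
  have hρ1 : ρ < 1 := by
    have : 0 < c' ^ 2 / 4 / R := by positivity
    exact max_lt one_pos (by linarith)
  have hρ0 : 0 ≤ ρ := le_max_left _ _
  obtain ⟨N, hN⟩ := exists_pow_lt_of_lt_one hε hρ1
  have hθM : Irrational (θ * (M : ℝ)) := hθ.mul_natCast (by omega)
  obtain ⟨K₀, hK₀⟩ := orbit hθM hR le_rfl N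
  refine ⟨K₀, fun K hK b D hS A hA1 hA2 => ?_⟩
  have hD : ∀ j, ∀ d ∈ D j, d < b j := fun j => (hS j).2.2.1
  have hDpos : ∀ j, (0 : ℝ) < (D j).card := by
    intro j
    have := (hS j).2.2.2
    have h : 0 < (D j).card := by omega
    exact_mod_cast h
  have hDR : ∀ j, ((D j).card : ℝ) ≤ R := by
    intro j
    have h1 : (D j).card ≤ (range (b j)).card :=
      Finset.card_le_card fun d hd => Finset.mem_range.2 (hD j d hd)
    rw [card_range] at h1
    exact_mod_cast h1.trans (hS j).2.1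
  have hev := hK₀ (fun j => A * wt b j) (by simpa [wt] using hA1) (by simpa [wt] using hA2)
    (fun j => ⟨b j, (hS j).1, (hS j).2.1, by
      unfold wt
      rw [prod_range_succ]
      ring⟩)
  have hev' : N ≤ ((range K).filter fun j => c ≤ ‖e (θ * (M : ℝ) * ((A * wt b j : ℕ) : ℝ)) - 1‖).card := by
    refine hev.trans (Finset.card_le_card ?_)
    intro j hj
    rw [Finset.mem_filter, Finset.mem_range] at hj ⊢
    exact ⟨by omega, hj.2⟩
  have hg1 : ∀ j : ℕ, ‖∑ t ∈ D j, e (θ * A * wt b j * t)‖ / (D j).card ≤ 1 := by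
    intro j
    rw [div_le_one (hDpos j)]
    refine (norm_sum_le _ _).trans (le_of_eq ?_)
    simp only [norm_e, sum_const, nsmul_eq_mul, mul_one]
  have key := prod_small (g := fun j => ‖∑ t ∈ D j, e (θ * A * wt b j * t)‖ / (D j).card)
    (fun j => by positivity) hg1 hρ0 hρ1.le hev' (by
      intro j hj
      obtain ⟨d, hd, d', hd', hne⟩ := Finset.one_lt_card.1 (show 1 < (D j).card from (hS j).2.2.2)
      wlog hlt : d < d' generalizing d d'
      · exact this d' hd' d hd hne.symm (by omega)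
      obtain ⟨q, hq⟩ : d' - d ∣ M := by
        rw [hM]
        apply Nat.dvd_factorial (by omega)
        have h1 := hD j d' hd'
        have h2 := (hS j).2.1
        omega
      have hq1 : 1 ≤ q := by
        rcases Nat.eq_zero_or_pos q with h0 | h0
        · rw [h0] at hq
          omega
        · exact h0
      have hqM : (q : ℝ) ≤ M := by
        have h1 : 1 * q ≤ (d' - d) * q := Nat.mul_le_mul_right _ (by omega)
        have : q ≤ M := by
          rw [hq]
          omega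
        exact_mod_cast this
      have e1 : e (θ * (M : ℝ) * ((A * wt b j : ℕ) : ℝ)) =
          e (θ * A * wt b j * ((d' : ℝ) - d)) ^ q := by
        rw [← e_nat_mul]
        congr 1
        have h1 : (M : ℝ) = ((d' : ℝ) - d) * q := by
          rw [hq]
          push_cast [Nat.cast_sub hlt.le]
          ring
        rw [h1]
        push_cast
        ring
      rw [e1] at hj
      have h3 : c' ≤ ‖e (θ * A * wt b j * ((d' : ℝ) - d)) - 1‖ := by
        have h4 := hj.trans (pow_sub_le (norm_e _) q)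
        have h5 : (q : ℝ) * ‖e (θ * A * wt b j * ((d' : ℝ) - d)) - 1‖ ≤
            M * ‖e (θ * A * wt b j * ((d' : ℝ) - d)) - 1‖ :=
          mul_le_mul_of_nonneg_right hqM (norm_nonneg _)
        rw [hc', div_le_iff₀ (by linarith)]
        linarith
      have h4 := digit_le hd hd' hne (θ * A * wt b j) hc'0.le hc'2 h3
      refine le_max_of_le_right ?_
      rw [div_le_iff₀ (hDpos j)]
      have h5 : c' ^ 2 / 4 / R * (D j).card ≤ c' ^ 2 / 4 := by
        rw [div_mul_eq_mul_div, div_le_iff₀ (by linarith)]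
        exact mul_le_mul_of_nonneg_left (hDR j) (by positivity)
      linarith)
  rw [sum_dig hD, norm_prod, dig_card hD]
  push_cast
  have hprod : (0 : ℝ) < ∏ j ∈ range K, ((D j).card : ℝ) := prod_pos fun j _ => hDpos j
  rw [prod_div_distrib, div_le_iff₀ hprod] at key
  exact key.trans (mul_le_mul_of_nonneg_right hN.le hprod.le)

end Pool.Agent.P8H8.MD
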