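import Pool.Agent.TH545.SD.Dh
import Pool.Agent.N141.SG.Near

/-! # Never special vectors and subdivision: one open set for all degrees -/

set_option autoImplicit false

namespace Pool.Agent.P8H8.MD

open Pool.Agent.TH545.SD Pool.Agent.TH641.UM

theorem gd_of_exN {n : ℕ} {w : Fin n → ℕ} (h : Pool.Agent.N141.SG.ExN w) : Gd (ms w) := by
  obtain ⟨F, hF, hF'⟩ := h
  intro ι _ w' hw' d
  have h1 : GD d (ms w) := by
    refine GD_of_open (K := ℂ) ⟨F.map (algebraMap ℚ ℂ), Pool.Agent.H932R3.map_ne_zero_of hF, fun P hP => ?_⟩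
    rw [MvPolynomial.eval_map] at hP
    exact hF' P hP d
  exact h1 w' hw'

end Pool.Agent.P8H8.MD
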