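import Pool.Agent.P8H8.MD.All
import Pool.Agent.P8H8.MD.Sub
import Pool.Agent.TH885.CO.Fin
import Pool.Agent.N794.DG.Fat

/-! # Classes whose reduction has a good sum -/

set_option autoImplicit false

namespace Pool.Agent.P8H8.MD

open MvPolynomial
open Pool.Agent.TH167
open Pool.Agent.TH885.CO (LineStep segre_core)
open Pool.Agent.N141.SG (GoodN)

theorem red_of {n W : ℕ} (hn : 10 ≤ n) (h : GoodN n W) {s d d1 k : ℕ} {w w1 : Fin s → ℕ} {S : Finset (Fin s)}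
    (hk : 1 ≤ k) (hS : S.card = n) (hnear : ∀ i ∈ S, w1 i = k ∨ w1 i = k + 1)
    (hcase : 15 ≤ n ∨ ∀ i ∈ S, w1 i = k) (hsum : ∑ i ∈ S, w1 i = W) (hw : ∀ i, i ∉ S → w1 i ≤ 1)
    (hred : Relation.ReflTransGen (fun a b => SHDefs.Quadratic a b ∨ LineStep a b) (d, w) (d1, w1)) :
    ∃ F : MvPolynomial (Fin s × Fin 2) ℂ, F ≠ 0 ∧ ∀ P : Fin s → Fin 2 → ℂ,
      eval (fun ij : Fin s × Fin 2 => P ij.1 ij.2) F ≠ 0 →
        (SHDefs.Special P d w → ∃ (G : MvPolynomial (Fin 3) ℂ) (e : ℕ) (u : Fin s → ℕ),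
          SHDefs.MinusOne P G e u ∧ SHDefs.inter d w e u ≤ -2 ∧ ∀ f ∈ SHDefs.sys P d w, G ^ 2 ∣ f) ∧
        (Relation.ReflTransGen SHDefs.Quadratic (d, w) (d1, w1) → ¬ SHDefs.Special P d w) := by
  refine segre_core hk S hS hw ?_ ?_ hred
  · rcases hcase with h1 | h1
    · exact Or.inr ⟨h1, hnear⟩
    · exact Or.inl ⟨hn, h1⟩
  · intro e he K _ _
    have himg : Finset.univ.map e = S := by
      apply Finset.eq_of_subset_of_card_le
      · intro i hi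
        rw [Finset.mem_map] at hi
        obtain ⟨j, -, rfl⟩ := hi
        exact he j
      · rw [Finset.card_map, Finset.card_univ, Fintype.card_fin, hS]
    have hs : ∑ j, w1 (e j) = W := by
      rw [← hsum, ← himg, Finset.sum_map]
    have hex := h k (by omega) (fun j => w1 (e j)) (fun j => hnear _ (he j)) hs
    have hg : Pool.Agent.TH545.SD.Gd (Pool.Agent.TH641.UM.ms (fun j => w1 (e j))) := gd_of_exN hex
    obtain ⟨F, hF, hF'⟩ := Pool.Agent.TH545.SD.Gd.expDim hg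
    exact ⟨F, hF, fun P hP => hF' P hP d1⟩

/-- equal multiplicities -/
theorem red_eq {n m : ℕ} (hn : 10 ≤ n) (hm : 1 ≤ m) (h : Pool.Agent.N141.SG.Tgt (m : ℕ)) {s d d1 : ℕ}
    {w w1 : Fin s → ℕ} {S : Finset (Fin s)} (hS : S.card = n) (heq : ∀ i ∈ S, w1 i = m)
    (hw : ∀ i, i ∉ S → w1 i ≤ 1)
    (hred : Relation.ReflTransGen (fun a b => SHDefs.Quadratic a b ∨ LineStep a b) (d, w) (d1, w1)) :
    ∃ F : MvPolynomial (Fin s × Fin 2) ℂ, F ≠ 0 ∧ ∀ P : Fin s → Fin 2 → ℂ,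
      eval (fun ij : Fin s × Fin 2 => P ij.1 ij.2) F ≠ 0 →
        (SHDefs.Special P d w → ∃ (G : MvPolynomial (Fin 3) ℂ) (e : ℕ) (u : Fin s → ℕ),
          SHDefs.MinusOne P G e u ∧ SHDefs.inter d w e u ≤ -2 ∧ ∀ f ∈ SHDefs.sys P d w, G ^ 2 ∣ f) ∧
        (Relation.ReflTransGen SHDefs.Quadratic (d, w) (d1, w1) → ¬ SHDefs.Special P d w) := by
  refine segre_core hm S hS hw (Or.inl ⟨hn, heq⟩) ?_ hred
  intro e he K _ _
  have e1 : (fun j => w1 (e j)) = fun _ => m := funext fun j => heq _ (he j)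
  rw [e1]
  have hex : Pool.Agent.N141.SG.ExN (fun _ : Fin n => m) := Pool.Agent.N141.SG.every h hm hn
  have hg : Pool.Agent.TH545.SD.Gd (Pool.Agent.TH641.UM.ms (fun _ : Fin n => m)) := gd_of_exN hex
  obtain ⟨F, hF, hF'⟩ := Pool.Agent.TH545.SD.Gd.expDim hg
  exact ⟨F, hF, fun P hP => hF' P hP d1⟩

end Pool.Agent.P8H8.MD
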